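import Mathlib

/-!
Counting lemmas for the random construction.
-/

set_option autoImplicit false

namespace Pool.Agent.H49.Fdom

open Finset

/-- indices of base edges: `(false, i)` are the edges that get one subdivision vertex,
`(true, i)` the ones that get two -/
abbrev Idx (m : ℕ) := Bool × Fin m

/-- a choice of end points for all base edges -/
abbrev Ends (n m : ℕ) := Idx m → Fin n × Fin n

/-- whether the thread `i` with ends `e` must contain a chosen inner vertex, if the chosen base
vertices are `A` (left) and `B` (right) -/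
def need {n : ℕ} (A B : Finset (Fin n)) (t : Bool) (e : Fin n × Fin n) : Prop :=
  if t then ¬ (e.1 ∈ A ∧ e.2 ∈ B) else (e.1 ∉ A ∧ e.2 ∉ B)

instance {n : ℕ} (A B : Finset (Fin n)) (t : Bool) (e : Fin n × Fin n) :
    Decidable (need A B t e) := by
  unfold need; infer_instance

/-- number of threads that must contain a chosen inner vertex -/
def X {n m : ℕ} (A B : Finset (Fin n)) (f : Ends n m) : ℕ :=
  (univ.filter (fun i : Idx m => need A B i.1 (f i))).card

theorem card_need_false {n : ℕ} (A B : Finset (Fin n)) :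
    (univ.filter (fun e : Fin n × Fin n => need A B false e)).card = (n - A.card) * (n - B.card) := by
  have : (univ.filter (fun e : Fin n × Fin n => need A B false e)) = Aᶜ ×ˢ Bᶜ := by
    ext e; simp [need]
  rw [this, card_product, card_compl, card_compl, Fintype.card_fin]

theorem card_need_true {n : ℕ} (A B : Finset (Fin n)) :
    (univ.filter (fun e : Fin n × Fin n => need A B true e)).card = n * n - A.card * B.card := by
  have : (univ.filter (fun e : Fin n × Fin n => need A B true e)) = (A ×ˢ B)ᶜ := by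
    ext e; simp [need]
  rw [this, card_compl, card_product, Fintype.card_prod, Fintype.card_fin]

/-- exponential moment, one coordinate -/
theorem sum_exp_need {n : ℕ} (A B : Finset (Fin n)) (t : Bool) (l : ℝ) :
    ∑ e : Fin n × Fin n, Real.exp (-l * (if need A B t e then 1 else 0)) =
      (n : ℝ) ^ 2 - (1 - Real.exp (-l)) *
        ((univ.filter (fun e : Fin n × Fin n => need A B t e)).card : ℝ) := by
  have h1 : ∀ e : Fin n × Fin n, Real.exp (-l * (if need A B t e then 1 else 0)) =
      1 - (1 - Real.exp (-l)) * (if need A B t e then 1 else 0) := by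
    intro e; split_ifs <;> simp
  simp_rw [h1]
  rw [sum_sub_distrib, ← mul_sum, sum_boole]
  simp [Fintype.card_prod]
  ring

theorem sum_exp_X {n m : ℕ} (A B : Finset (Fin n)) (l : ℝ) :
    ∑ f : Ends n m, Real.exp (-l * (X A B f : ℝ)) =
      ∏ i : Idx m, ((n : ℝ) ^ 2 - (1 - Real.exp (-l)) *
        ((univ.filter (fun e : Fin n × Fin n => need A B i.1 e)).card : ℝ)) := by
  simp_rw [← sum_exp_need]
  rw [Fintype.prod_sum]
  refine sum_congr rfl fun f _ => ?_
  rw [← Real.exp_sum, ← mul_sum]
  congr 2
  unfold X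
  rw [sum_boole]

/-- expected relative need -/
noncomputable def sVal {n : ℕ} (A B : Finset (Fin n)) : ℝ :=
  2 - (A.card : ℝ) / n - (B.card : ℝ) / n

theorem card_le_real {n : ℕ} (A : Finset (Fin n)) : (A.card : ℝ) ≤ n := by
  have := card_le_univ A
  simp at this
  exact_mod_cast this

theorem sVal_nonneg {n : ℕ} (hn : 0 < n) (A B : Finset (Fin n)) : 0 ≤ sVal A B := by
  unfold sVal
  have h1 : (A.card : ℝ) / n ≤ 1 := div_le_one_of_le₀ (card_le_real A) (by positivity)
  have h2 : (B.card : ℝ) / n ≤ 1 := div_le_one_of_le₀ (card_le_real B) (by positivity)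
  linarith

theorem sVal_le_two {n : ℕ} (A B : Finset (Fin n)) : sVal A B ≤ 2 := by
  unfold sVal
  have h1 : 0 ≤ (A.card : ℝ) / n := by positivity
  have h2 : 0 ≤ (B.card : ℝ) / n := by positivity
  linarith

theorem card_need_real_false {n : ℕ} (A B : Finset (Fin n)) :
    ((univ.filter (fun e : Fin n × Fin n => need A B false e)).card : ℝ) =
      ((n : ℝ) - A.card) * (n - B.card) := by
  rw [card_need_false, Nat.cast_mul, Nat.cast_sub (by simpa using card_le_univ A),
    Nat.cast_sub (by simpa using card_le_univ B)]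

theorem card_need_real_true {n : ℕ} (A B : Finset (Fin n)) :
    ((univ.filter (fun e : Fin n × Fin n => need A B true e)).card : ℝ) =
      (n : ℝ) * n - A.card * B.card := by
  rw [card_need_true, Nat.cast_sub, Nat.cast_mul, Nat.cast_mul]
  exact Nat.mul_le_mul (by simpa using card_le_univ A) (by simpa using card_le_univ B)

theorem sum_card_need {n m : ℕ} (hn : 0 < n) (A B : Finset (Fin n)) :
    ∑ i : Idx m, ((univ.filter (fun e : Fin n × Fin n => need A B i.1 e)).card : ℝ) =
      m * ((n : ℝ) ^ 2 * sVal A B) := by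
  rw [Fintype.sum_prod_type]
  simp only [Fintype.sum_bool, sum_const, card_univ, Fintype.card_fin, nsmul_eq_mul]
  rw [card_need_real_false, card_need_real_true]
  unfold sVal
  have : (n : ℝ) ≠ 0 := by positivity
  field_simp
  ring

theorem sum_exp_X_le {n m : ℕ} (hn : 0 < n) (A B : Finset (Fin n)) (l : ℝ) (hl : 0 ≤ l) :
    ∑ f : Ends n m, Real.exp (-l * (X A B f : ℝ)) ≤
      ((n : ℝ) ^ 2) ^ (2 * m) * Real.exp (-(1 - Real.exp (-l)) * (m * sVal A B)) := by
  rw [sum_exp_X]
  have hu1 : Real.exp (-l) ≤ 1 := Real.exp_le_one_iff.2 (by linarith)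
  have hu0 : 0 < Real.exp (-l) := Real.exp_pos _
  have hn2 : (0 : ℝ) < (n : ℝ) ^ 2 := by positivity
  have hc : ∀ t : Bool, ((univ.filter (fun e : Fin n × Fin n => need A B t e)).card : ℝ) ≤
      (n : ℝ) ^ 2 := by
    intro t
    have := card_le_univ (univ.filter (fun e : Fin n × Fin n => need A B t e))
    simp only [Fintype.card_prod, Fintype.card_fin] at this
    rw [pow_two]
    exact_mod_cast this
  calc ∏ i : Idx m, ((n : ℝ) ^ 2 - (1 - Real.exp (-l)) *
        ((univ.filter (fun e : Fin n × Fin n => need A B i.1 e)).card : ℝ))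
      ≤ ∏ i : Idx m, ((n : ℝ) ^ 2 * Real.exp (-(1 - Real.exp (-l)) *
        (((univ.filter (fun e : Fin n × Fin n => need A B i.1 e)).card : ℝ) / (n : ℝ) ^ 2))) := by
        refine prod_le_prod ?_ ?_
        · intro i _
          have h1 := hc i.1
          have h2 : (1 - Real.exp (-l)) *
            ((univ.filter (fun e : Fin n × Fin n => need A B i.1 e)).card : ℝ) ≤ 1 * (n : ℝ) ^ 2 :=
            mul_le_mul (by linarith) h1 (by positivity) (by norm_num)
          linarith
        · intro i _
          have h3 := Real.add_one_le_exp (-(1 - Real.exp (-l)) *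
            (((univ.filter (fun e : Fin n × Fin n => need A B i.1 e)).card : ℝ) / (n : ℝ) ^ 2))
          have h4 : (n : ℝ) ^ 2 - (1 - Real.exp (-l)) *
            ((univ.filter (fun e : Fin n × Fin n => need A B i.1 e)).card : ℝ) =
            (n : ℝ) ^ 2 * (-(1 - Real.exp (-l)) *
            (((univ.filter (fun e : Fin n × Fin n => need A B i.1 e)).card : ℝ) / (n : ℝ) ^ 2) + 1) := by
            field_simp
            ring
          rw [h4]
          exact mul_le_mul_of_nonneg_left h3 hn2.le
    _ = ((n : ℝ) ^ 2) ^ (2 * m) * Real.exp (-(1 - Real.exp (-l)) * (m * sVal A B)) := by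
        rw [prod_mul_distrib, prod_const, card_univ, Fintype.card_prod, Fintype.card_bool,
          Fintype.card_fin, ← Real.exp_sum, ← mul_sum, ← sum_div, sum_card_need hn]
        congr 3
        field_simp

/-- the assignments for which `(A, B)` is bad are rare -/
theorem card_bad_le {n m : ℕ} (hn : 0 < n) (A B : Finset (Fin n)) (ε : ℝ) (hε : 0 < ε) :
    ((univ.filter (fun f : Ends n m => (X A B f : ℝ) < m * (sVal A B - ε))).card : ℝ) ≤
      ((n : ℝ) ^ 2) ^ (2 * m) * Real.exp (-(m * (ε ^ 2 / 8))) := by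
  set l : ℝ := ε / 4 with hl
  have hl0 : 0 < l := by positivity
  set T : ℝ := m * (sVal A B - ε) with hT
  set S := univ.filter (fun f : Ends n m => (X A B f : ℝ) < T) with hS
  have h1 : (S.card : ℝ) * Real.exp (-l * T) ≤ ∑ f : Ends n m, Real.exp (-l * (X A B f : ℝ)) := by
    calc (S.card : ℝ) * Real.exp (-l * T) = ∑ f ∈ S, Real.exp (-l * T) := by
          rw [sum_const, nsmul_eq_mul]
      _ ≤ ∑ f ∈ S, Real.exp (-l * (X A B f : ℝ)) := by
          refine sum_le_sum fun f hf => ?_
          rw [Real.exp_le_exp]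
          have : (X A B f : ℝ) < T := (mem_filter.1 hf).2
          nlinarith
      _ ≤ ∑ f : Ends n m, Real.exp (-l * (X A B f : ℝ)) :=
          sum_le_sum_of_subset_of_nonneg (subset_univ _) fun _ _ _ => (Real.exp_pos _).le
  have h2 := h1.trans (sum_exp_X_le hn A B l hl0.le)
  have hs0 := sVal_nonneg hn A B
  have hs2 := sVal_le_two A B
  -- `exp (-l) ≤ 1 / (1 + l)`
  have h3 : l - l ^ 2 ≤ 1 - Real.exp (-l) := by
    have h4 : 1 + l ≤ Real.exp l := by linarith [Real.add_one_le_exp l]
    have h5 : Real.exp (-l) ≤ 1 / (1 + l) := by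
      rw [Real.exp_neg, ← one_div]
      exact one_div_le_one_div_of_le (by linarith) h4
    have h6 : 1 / (1 + l) ≤ 1 - l + l ^ 2 := by
      rw [div_le_iff₀ (by linarith)]
      nlinarith [pow_pos hl0 3]
    linarith
  have hm0 : (0 : ℝ) ≤ m := by positivity
  have h7 : -(1 - Real.exp (-l)) * (m * sVal A B) + l * T ≤ -(m * (ε ^ 2 / 8)) := by
    have h8 : (l - l ^ 2) * (m * sVal A B) ≤ (1 - Real.exp (-l)) * (m * sVal A B) :=
      mul_le_mul_of_nonneg_right h3 (by positivity)
    have h9 : m * (l ^ 2 * sVal A B) ≤ m * (l ^ 2 * 2) :=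
      mul_le_mul_of_nonneg_left (mul_le_mul_of_nonneg_left hs2 (by positivity)) hm0
    have h10 : l ^ 2 * 2 - l * ε = - (ε ^ 2 / 8) := by rw [hl]; ring
    have h11 : (m : ℝ) * (l ^ 2 * 2) - m * (l * ε) = -(m * (ε ^ 2 / 8)) := by
      rw [← mul_sub, h10]; ring
    rw [hT]
    nlinarith
  have h12 : (S.card : ℝ) ≤ ((n : ℝ) ^ 2) ^ (2 * m) *
      Real.exp (-(1 - Real.exp (-l)) * (m * sVal A B) + l * T) := by
    rw [Real.exp_add, ← mul_assoc]
    have h13 : Real.exp (-l * T) * Real.exp (l * T) = 1 := by
      rw [← Real.exp_add]; simp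
    calc (S.card : ℝ) = (S.card : ℝ) * Real.exp (-l * T) * Real.exp (l * T) := by
          rw [mul_assoc, h13, mul_one]
      _ ≤ _ := mul_le_mul_of_nonneg_right h2 (Real.exp_pos _).le
  refine h12.trans ?_
  exact mul_le_mul_of_nonneg_left (Real.exp_le_exp.2 h7) (by positivity)

end Pool.Agent.H49.Fdom
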