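import Mathlib
import Pool.Agent.H49.Fdom.Random

/-!
Existence of the base structure: well mixed and without short closed structures.
-/

set_option autoImplicit false

namespace Pool.Agent.H49.Fdom

open Finset

/-- the thread with ends `e` has both ends in `U` -/
def Ins {n : ℕ} (U : Finset (Bool × Fin n)) (e : Fin n × Fin n) : Prop :=
  (false, e.1) ∈ U ∧ (true, e.2) ∈ U

instance {n : ℕ} (U : Finset (Bool × Fin n)) (e : Fin n × Fin n) : Decidable (Ins U e) := by
  unfold Ins; infer_instance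

theorem card_Ins_le {n : ℕ} (U : Finset (Bool × Fin n)) :
    (univ.filter (fun e : Fin n × Fin n => Ins U e)).card ≤ U.card ^ 2 := by
  rw [pow_two, ← card_product]
  refine card_le_card_of_injOn (fun e => ((false, e.1), (true, e.2))) ?_ ?_
  · intro e he
    simp only [coe_filter, mem_univ, true_and, Set.mem_ofPred_eq] at he
    simpa [Ins] using he
  · intro e _ e' _ h
    simp only [Prod.mk.injEq, true_and] at h
    exact Prod.ext h.1 h.2

/-- the pair `(U, J)` is a short dense structure for `f` -/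
def Short {n m : ℕ} (f : Ends n m) (U : Finset (Bool × Fin n)) (J : Finset (Idx m)) : Prop :=
  ∀ i ∈ J, Ins U (f i)

instance {n m : ℕ} (f : Ends n m) (U : Finset (Bool × Fin n)) (J : Finset (Idx m)) :
    Decidable (Short f U J) := by
  unfold Short; infer_instance

theorem card_Short {n m : ℕ} (U : Finset (Bool × Fin n)) (J : Finset (Idx m)) :
    (univ.filter (fun f : Ends n m => Short f U J)).card =
      (univ.filter (fun e : Fin n × Fin n => Ins U e)).card ^ J.card *
        (n ^ 2) ^ (2 * m - J.card) := by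
  have : (univ.filter (fun f : Ends n m => Short f U J)) =
      Fintype.piFinset (fun i => if i ∈ J then univ.filter (fun e : Fin n × Fin n => Ins U e)
        else univ) := by
    ext f
    rw [mem_filter, Fintype.mem_piFinset]
    constructor
    · rintro ⟨-, h⟩ i
      by_cases hi : i ∈ J
      · simpa [hi] using h i hi
      · simp [hi]
    · intro h
      refine ⟨mem_univ _, fun i hi => ?_⟩
      simpa [hi] using h i
  rw [this, Fintype.card_piFinset]
  have h2 : ∀ i : Idx m, (if i ∈ J then univ.filter (fun e : Fin n × Fin n => Ins U e)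
        else univ).card = if i ∈ J then (univ.filter (fun e : Fin n × Fin n => Ins U e)).card
        else n ^ 2 := by
    intro i
    split_ifs
    · rfl
    · simp [Fintype.card_prod, pow_two]
  simp_rw [h2]
  rw [prod_ite, prod_const, prod_const]
  congr 2
  · simp
  · rw [filter_not, card_sdiff_of_subset (filter_subset _ _)]
    simp [Fintype.card_prod]

/-- real bound for the number of assignments for which a given pair is short and dense -/
theorem card_Short_le {n m g : ℕ} (hn : 0 < n) (U : Finset (Bool × Fin n)) (J : Finset (Idx m))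
    (hUJ : J.card = U.card) (hUg : U.card ≤ g) :
    ((univ.filter (fun f : Ends n m => Short f U J)).card : ℝ) ≤
      ((n : ℝ) ^ 2) ^ (2 * m) * ((g : ℝ) ^ 2 / (n : ℝ) ^ 2) ^ U.card := by
  have hJ : J.card ≤ 2 * m := by
    have := card_le_univ J
    simpa [Fintype.card_prod] using this
  rw [card_Short]
  push_cast
  rw [hUJ]
  have h1 : ((univ.filter (fun e : Fin n × Fin n => Ins U e)).card : ℝ) ≤ (g : ℝ) ^ 2 := by
    have h2 := card_Ins_le U
    have h3 : U.card ^ 2 ≤ g ^ 2 := Nat.pow_le_pow_left hUg 2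
    exact_mod_cast h2.trans h3
  have hn2 : (0 : ℝ) < (n : ℝ) ^ 2 := by positivity
  have h4 : ((n : ℝ) ^ 2) ^ (2 * m) = ((n : ℝ) ^ 2) ^ U.card * ((n : ℝ) ^ 2) ^ (2 * m - U.card) := by
    rw [← pow_add]
    congr 1
    omega
  rw [h4, div_pow]
  calc ((univ.filter (fun e : Fin n × Fin n => Ins U e)).card : ℝ) ^ U.card *
        ((n : ℝ) ^ 2) ^ (2 * m - U.card)
      ≤ ((g : ℝ) ^ 2) ^ U.card * ((n : ℝ) ^ 2) ^ (2 * m - U.card) := by
        gcongr
    _ = _ := by
        field_simp

/-- number of short dense structures -/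
def Wt {n m : ℕ} (g : ℕ) (f : Ends n m) : ℕ :=
  ∑ u ∈ Ico 1 g, ((powersetCard u (univ : Finset (Bool × Fin n)) ×ˢ
    powersetCard u (univ : Finset (Idx m))).filter (fun UJ => Short f UJ.1 UJ.2)).card

theorem sum_Wt_le {n m g : ℕ} (hn : 0 < n) :
    (∑ f : Ends n m, (Wt g f : ℝ)) ≤
      ((n : ℝ) ^ 2) ^ (2 * m) * ∑ u ∈ Ico 1 g, (4 * (g : ℝ) ^ 2 * m / n) ^ u := by
  unfold Wt
  push_cast
  rw [sum_comm, mul_sum]
  refine sum_le_sum fun u hu => ?_
  have hu' : u < g := (mem_Ico.1 hu).2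
  calc ∑ f : Ends n m, (((powersetCard u (univ : Finset (Bool × Fin n)) ×ˢ
    powersetCard u (univ : Finset (Idx m))).filter (fun UJ => Short f UJ.1 UJ.2)).card : ℝ)
      = ∑ UJ ∈ powersetCard u (univ : Finset (Bool × Fin n)) ×ˢ
        powersetCard u (univ : Finset (Idx m)),
        ((univ.filter (fun f : Ends n m => Short f UJ.1 UJ.2)).card : ℝ) := by
        simp_rw [← sum_boole]
        rw [sum_comm]
    _ ≤ ∑ UJ ∈ powersetCard u (univ : Finset (Bool × Fin n)) ×ˢ
        powersetCard u (univ : Finset (Idx m)),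
        ((n : ℝ) ^ 2) ^ (2 * m) * ((g : ℝ) ^ 2 / (n : ℝ) ^ 2) ^ u := by
        refine sum_le_sum fun UJ hUJ => ?_
        rw [mem_product, mem_powersetCard, mem_powersetCard] at hUJ
        have := card_Short_le (m := m) (g := g) hn UJ.1 UJ.2 (by rw [hUJ.1.2, hUJ.2.2])
          (by rw [hUJ.1.2]; exact hu'.le)
        rwa [hUJ.1.2] at this
    _ = ((Nat.choose (2 * n) u * Nat.choose (2 * m) u : ℕ) : ℝ) *
          (((n : ℝ) ^ 2) ^ (2 * m) * ((g : ℝ) ^ 2 / (n : ℝ) ^ 2) ^ u) := by
        rw [sum_const, card_product, card_powersetCard, card_powersetCard, nsmul_eq_mul]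
        simp [Fintype.card_prod]
    _ ≤ (((2 * n) ^ u * (2 * m) ^ u : ℕ) : ℝ) *
          (((n : ℝ) ^ 2) ^ (2 * m) * ((g : ℝ) ^ 2 / (n : ℝ) ^ 2) ^ u) := by
        refine mul_le_mul_of_nonneg_right ?_ (by positivity)
        exact_mod_cast Nat.mul_le_mul (Nat.choose_le_pow _ _) (Nat.choose_le_pow _ _)
    _ = ((n : ℝ) ^ 2) ^ (2 * m) * (4 * (g : ℝ) ^ 2 * m / n) ^ u := by
        push_cast
        have hn' : (n : ℝ) ≠ 0 := by positivity
        have : (4 * (g : ℝ) ^ 2 * m / n) = (2 * n) * (2 * m) * ((g : ℝ) ^ 2 / (n : ℝ) ^ 2) := by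
          field_simp
          ring
        rw [this, mul_pow _ ((g : ℝ) ^ 2 / (n : ℝ) ^ 2), mul_pow (2 * (n : ℝ)) (2 * m)]
        ring

/-- removed indices -/
def Rem {n m : ℕ} (g : ℕ) (f : Ends n m) : Finset (Idx m) :=
  (Ico 1 g).biUnion fun u => ((powersetCard u (univ : Finset (Bool × Fin n)) ×ˢ
    powersetCard u (univ : Finset (Idx m))).filter (fun UJ => Short f UJ.1 UJ.2)).biUnion
      fun UJ => UJ.2

theorem card_Rem_le {n m g : ℕ} (f : Ends n m) : (Rem g f).card ≤ g * Wt g f := by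
  unfold Rem Wt
  rw [mul_sum]
  refine card_biUnion_le.trans (sum_le_sum fun u hu => ?_)
  refine card_biUnion_le.trans ?_
  calc _ ≤ ∑ UJ ∈ ((powersetCard u (univ : Finset (Bool × Fin n)) ×ˢ
    powersetCard u (univ : Finset (Idx m))).filter (fun UJ => Short f UJ.1 UJ.2)), g := by
        refine sum_le_sum fun UJ hUJ => ?_
        rw [mem_filter, mem_product, mem_powersetCard, mem_powersetCard] at hUJ
        rw [hUJ.1.2.2]
        exact (mem_Ico.1 hu).2.le
    _ = _ := by rw [sum_const, smul_eq_mul, mul_comm]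

theorem sparse_after_Rem {n m g : ℕ} (f : Ends n m) (U : Finset (Bool × Fin n))
    (hU : U.Nonempty) (hUg : U.card < g) :
    (univ.filter (fun i : Idx m => i ∉ Rem g f ∧ Ins U (f i))).card < U.card := by
  by_contra hcon
  rw [not_lt] at hcon
  obtain ⟨J, hJ, hJc⟩ := exists_subset_card_eq hcon
  have hpos : 0 < U.card := card_pos.2 hU
  have hJne : J.Nonempty := by rw [← card_pos, hJc]; exact hpos
  obtain ⟨i, hi⟩ := hJne
  have h1 := (mem_filter.1 (hJ hi)).2.1
  apply h1
  unfold Rem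
  rw [mem_biUnion]
  refine ⟨U.card, mem_Ico.2 ⟨hpos, hUg⟩, ?_⟩
  rw [mem_biUnion]
  refine ⟨(U, J), ?_, hi⟩
  rw [mem_filter, mem_product, mem_powersetCard, mem_powersetCard]
  exact ⟨⟨⟨subset_univ _, rfl⟩, ⟨subset_univ _, hJc⟩⟩, fun j hj => (mem_filter.1 (hJ hj)).2.2⟩

theorem card_Ends {n m : ℕ} : ((univ : Finset (Ends n m)).card : ℝ) = ((n : ℝ) ^ 2) ^ (2 * m) := by
  rw [card_univ]
  simp [Fintype.card_prod, pow_two]

theorem exp_bound (n : ℕ) (hn : 0 < n) : (4 : ℝ) ^ n * Real.exp (-(4 * n)) ≤ 1 / 4 := by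
  have h1 : (2 : ℝ) ≤ Real.exp 1 := by
    have := Real.add_one_le_exp (1 : ℝ)
    linarith
  have h2 : (16 : ℝ) ≤ Real.exp 4 := by
    have : Real.exp 4 = Real.exp 1 ^ 4 := by
      rw [← Real.exp_nat_mul]; norm_num
    rw [this]
    calc (16 : ℝ) = 2 ^ 4 := by norm_num
      _ ≤ Real.exp 1 ^ 4 := pow_le_pow_left₀ (by norm_num) h1 4
  have h3 : Real.exp (-(4 * n)) = (Real.exp 4)⁻¹ ^ n := by
    rw [← Real.exp_neg, ← Real.exp_nat_mul]
    congr 1
    ring
  rw [h3, ← mul_pow]
  have h4 : 4 * (Real.exp 4)⁻¹ ≤ 1 / 4 := by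
    have : (Real.exp 4)⁻¹ ≤ 16⁻¹ := inv_anti₀ (by norm_num) h2
    linarith
  calc (4 * (Real.exp 4)⁻¹) ^ n ≤ (1 / 4) ^ n := pow_le_pow_left₀ (by positivity) h4 n
    _ ≤ (1 / 4) ^ 1 := pow_le_pow_of_le_one (by norm_num) (by norm_num) hn
    _ = 1 / 4 := by norm_num

/-- The base structure: `m + m` threads with ends in two sets of size `n`, well mixed and, after
removing few threads, without short dense structures. -/
theorem exists_base (g : ℕ) (ε : ℝ) (hε : 0 < ε) :
    ∃ (n m : ℕ) (f : Ends n m) (R : Finset (Idx m)), 0 < n ∧ 0 < m ∧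
      (∀ A B : Finset (Fin n), (m : ℝ) * (sVal A B - ε) ≤ X A B f) ∧
      (R.card : ℝ) ≤ ε * m ∧
      ∀ U : Finset (Bool × Fin n), U.Nonempty → U.card < g →
        (univ.filter (fun i : Idx m => i ∉ R ∧ Ins U (f i))).card < U.card := by
  obtain ⟨C, hC⟩ := exists_nat_ge (32 / ε ^ 2)
  have hCpos : 0 < C := by
    have : (0 : ℝ) < 32 / ε ^ 2 := by positivity
    exact_mod_cast this.trans_le hC
  set K : ℝ := ∑ u ∈ Ico 1 g, (4 * (g : ℝ) ^ 2 * C) ^ u + 1 with hK
  have hKpos : 0 < K := by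
    have : 0 ≤ ∑ u ∈ Ico 1 g, (4 * (g : ℝ) ^ 2 * C) ^ u := by positivity
    linarith
  obtain ⟨n, hn⟩ := exists_nat_ge (max 1 (4 * g * K / ε))
  have hnpos : 0 < n := by
    have : (1 : ℝ) ≤ n := (le_max_left _ _).trans hn
    exact_mod_cast this
  have hn2 : 4 * g * K / ε ≤ n := (le_max_right _ _).trans hn
  set m := C * n with hm
  have hmpos : 0 < m := Nat.mul_pos hCpos hnpos
  have hnR : (0 : ℝ) < n := by exact_mod_cast hnpos
  have hmR : (m : ℝ) = C * n := by rw [hm]; push_cast; ring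
  set N : ℝ := ((n : ℝ) ^ 2) ^ (2 * m) with hN
  have hNpos : 0 < N := by positivity
  -- first kind of bad assignments
  set Bad1 := univ.filter (fun f : Ends n m => ∃ A B : Finset (Fin n),
    (X A B f : ℝ) < m * (sVal A B - ε)) with hBad1
  have hb1 : (Bad1.card : ℝ) ≤ N / 4 := by
    have hsub : Bad1 ⊆ (univ : Finset (Finset (Fin n) × Finset (Fin n))).biUnion fun AB =>
        univ.filter (fun f : Ends n m => (X AB.1 AB.2 f : ℝ) < m * (sVal AB.1 AB.2 - ε)) := by
      intro f hf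
      obtain ⟨A, B, hAB⟩ := (mem_filter.1 hf).2
      rw [mem_biUnion]
      exact ⟨(A, B), mem_univ _, mem_filter.2 ⟨mem_univ _, hAB⟩⟩
    have h1 : (Bad1.card : ℝ) ≤ ∑ AB : Finset (Fin n) × Finset (Fin n),
        ((univ.filter (fun f : Ends n m =>
          (X AB.1 AB.2 f : ℝ) < m * (sVal AB.1 AB.2 - ε))).card : ℝ) := by
      exact_mod_cast (card_le_card hsub).trans card_biUnion_le
    refine h1.trans ?_
    calc ∑ AB : Finset (Fin n) × Finset (Fin n),
        ((univ.filter (fun f : Ends n m =>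
          (X AB.1 AB.2 f : ℝ) < m * (sVal AB.1 AB.2 - ε))).card : ℝ)
        ≤ ∑ _AB : Finset (Fin n) × Finset (Fin n), N * Real.exp (-(m * (ε ^ 2 / 8))) :=
          sum_le_sum fun AB _ => card_bad_le hnpos AB.1 AB.2 ε hε
      _ = (4 : ℝ) ^ n * (N * Real.exp (-(m * (ε ^ 2 / 8)))) := by
          rw [sum_const, nsmul_eq_mul]
          congr 1
          rw [card_univ]
          simp only [Fintype.card_prod, Fintype.card_finset, Fintype.card_fin]
          push_cast
          rw [← mul_pow]; norm_num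
      _ ≤ (4 : ℝ) ^ n * (N * Real.exp (-(4 * n))) := by
          have : 4 * (n : ℝ) ≤ m * (ε ^ 2 / 8) := by
            rw [hmR]
            have h2 : 32 ≤ C * ε ^ 2 := by
              rw [div_le_iff₀ (by positivity)] at hC
              exact hC
            nlinarith
          gcongr
      _ = N * ((4 : ℝ) ^ n * Real.exp (-(4 * n))) := by ring
      _ ≤ N * (1 / 4) := mul_le_mul_of_nonneg_left (exp_bound n hnpos) hNpos.le
      _ = N / 4 := by ring
  -- second kind
  set Bad2 := univ.filter (fun f : Ends n m => 4 * K < (Wt g f : ℝ)) with hBad2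
  have hb2 : (Bad2.card : ℝ) ≤ N / 4 := by
    have h1 : (Bad2.card : ℝ) * (4 * K) ≤ ∑ f : Ends n m, (Wt g f : ℝ) := by
      calc (Bad2.card : ℝ) * (4 * K) = ∑ _f ∈ Bad2, 4 * K := by rw [sum_const, nsmul_eq_mul]
        _ ≤ ∑ f ∈ Bad2, (Wt g f : ℝ) := sum_le_sum fun f hf => (mem_filter.1 hf).2.le
        _ ≤ ∑ f : Ends n m, (Wt g f : ℝ) :=
            sum_le_sum_of_subset_of_nonneg (subset_univ _) fun _ _ _ => by positivity
    have h2 := h1.trans (sum_Wt_le (m := m) (g := g) hnpos)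
    have h3 : ∑ u ∈ Ico 1 g, (4 * (g : ℝ) ^ 2 * m / n) ^ u ≤ K := by
      have : (4 * (g : ℝ) ^ 2 * m / n) = 4 * (g : ℝ) ^ 2 * C := by
        rw [hmR]; field_simp
      rw [this, hK]
      linarith
    have h4 : (Bad2.card : ℝ) * (4 * K) ≤ N * K := h2.trans (mul_le_mul_of_nonneg_left h3 hNpos.le)
    have h5 : (Bad2.card : ℝ) * 4 ≤ N := by
      have : ((Bad2.card : ℝ) * 4) * K ≤ N * K := by linarith
      exact le_of_mul_le_mul_right this hKpos
    linarith
  have hex : ∃ f : Ends n m, f ∉ Bad1 ∧ f ∉ Bad2 := by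
    by_contra hcon
    push Not at hcon
    have hsub : (univ : Finset (Ends n m)) ⊆ Bad1 ∪ Bad2 := by
      intro f _
      rw [mem_union]
      by_cases h : f ∈ Bad1
      · exact Or.inl h
      · exact Or.inr (hcon f h)
    have h1 : ((univ : Finset (Ends n m)).card : ℝ) ≤ Bad1.card + Bad2.card := by
      exact_mod_cast (card_le_card hsub).trans (card_union_le _ _)
    rw [card_Ends] at h1
    linarith
  obtain ⟨f, hf1, hf2⟩ := hex
  refine ⟨n, m, f, Rem g f, hnpos, hmpos, ?_, ?_, fun U hU hUg => sparse_after_Rem f U hU hUg⟩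
  · intro A B
    by_contra hcon
    rw [not_le] at hcon
    exact hf1 (mem_filter.2 ⟨mem_univ _, A, B, hcon⟩)
  · have h1 : (Wt g f : ℝ) ≤ 4 * K := by
      by_contra hcon
      rw [not_le] at hcon
      exact hf2 (mem_filter.2 ⟨mem_univ _, hcon⟩)
    have h2 : ((Rem g f).card : ℝ) ≤ g * Wt g f := by exact_mod_cast card_Rem_le f
    have h3 : (g : ℝ) * Wt g f ≤ g * (4 * K) := mul_le_mul_of_nonneg_left h1 (by positivity)
    have h4 : 4 * g * K ≤ n * ε := by
      rwa [div_le_iff₀ hε] at hn2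
    have h5 : (n : ℝ) ≤ m := by
      rw [hmR]
      have : (1 : ℝ) ≤ C := by exact_mod_cast hCpos
      nlinarith
    nlinarith

end Pool.Agent.H49.Fdom
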