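import Mathlib

/-!
Fractional domatic number: definitions.
-/

set_option autoImplicit false

namespace Pool.Agent.H49.Fdom

/-- `D` is a dominating set of `G`: every vertex lies in `D` or has a neighbour in `D`. -/
def IsDominating {V : Type} (G : SimpleGraph V) (D : Set V) : Prop :=
  ∀ v : V, v ∈ D ∨ ∃ u ∈ D, G.Adj v u

/-- `φ` is a dominating `(a : b)`-colouring of `G`: every vertex gets a set of exactly `b` of the
`a` colours, and each of the `a` colour classes is a dominating set. -/
def IsDominatingColouring {V : Type} (G : SimpleGraph V) (a b : ℕ) (φ : V → Finset (Fin a)) :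
    Prop :=
  (∀ v, (φ v).card = b) ∧ ∀ i : Fin a, IsDominating G {v | i ∈ φ v}

/-- The fractional domatic number: the supremum of `a / b` over all positive integers `a ≥ b` such
that `G` has a dominating `(a : b)`-colouring. -/
noncomputable def fdom {V : Type} (G : SimpleGraph V) : ℝ :=
  sSup {x : ℝ | ∃ a b : ℕ, 1 ≤ b ∧ b ≤ a ∧ (∃ φ : V → Finset (Fin a), IsDominatingColouring G a b φ)
    ∧ x = (a : ℝ) / b}

open Classical in
/-- The infimum of the fractional domatic numbers of all finite simple graphs with minimum degree
exactly `2` and girth at least `g`. -/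
noncomputable def infFdom (g : ℕ) : ℝ :=
  sInf {x : ℝ | ∃ (V : Type) (_ : Fintype V) (G : SimpleGraph V),
    G.minDegree = 2 ∧ (g : ℕ∞) ≤ G.egirth ∧ x = fdom G}

end Pool.Agent.H49.Fdom
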