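import Pool.Agent.H49.Fdom.Upper
import Pool.Agent.H49.Fdom.Lower.Main

/-!
The value of the limit.
-/

set_option autoImplicit false

namespace Pool.Agent.H49.Fdom

theorem infFdom_eq (g : ℕ) (hg : 9 ≤ g) : infFdom g = 5 / 2 := by
  classical
  unfold infFdom
  have hlb : ∀ x ∈ {x : ℝ | ∃ (V : Type) (_ : Fintype V) (G : SimpleGraph V),
      G.minDegree = 2 ∧ (g : ℕ∞) ≤ G.egirth ∧ x = fdom G}, 5 / 2 ≤ x := by
    rintro x ⟨V, hV, G, hδ, hgirth, rfl⟩
    have hne : Nonempty V := by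
      by_contra hcon
      rw [not_nonempty_iff] at hcon
      have : G.minDegree = 0 := by simp [SimpleGraph.minDegree]
      omega
    refine lower (two_le_dg_of_minDegree hδ.ge) (le_trans ?_ hgirth)
    exact_mod_cast hg
  refine le_antisymm ?_ ?_
  · refine le_of_forall_pos_le_add fun ε hε => ?_
    obtain ⟨V, hV, G, hδ, hgirth, hle⟩ := upper g ε hε
    refine le_trans (csInf_le ⟨5 / 2, hlb⟩ ⟨V, hV, G, ?_, hgirth, rfl⟩) hle
    convert hδ
  · obtain ⟨V, hV, G, hδ, hgirth, -⟩ := upper g 1 one_pos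
    refine le_csInf ⟨fdom G, V, hV, G, ?_, hgirth, rfl⟩ hlb
    convert hδ

theorem tendsto_infFdom : Filter.Tendsto infFdom Filter.atTop (nhds (5 / 2)) := by
  refine tendsto_const_nhds.congr' ?_
  filter_upwards [Filter.eventually_ge_atTop 9] with g hg
  exact (infFdom_eq g hg).symm

end Pool.Agent.H49.Fdom
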