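import Mathlib

/-!
Graphs made of base vertices joined by threads (paths of inner vertices of degree two).
-/

set_option autoImplicit false

namespace Pool.Agent.H49.Fdom

open Finset

/-- If the girth is less than `g` then there is a nonempty set of fewer than `g` vertices each of
which has two neighbours in the set. -/
theorem exists_core {V : Type} [DecidableEq V] (G : SimpleGraph V) (g : ℕ)
    (h : ¬ (g : ℕ∞) ≤ G.egirth) :
    ∃ S : Finset V, S.Nonempty ∧ S.card < g ∧
      ∀ v ∈ S, ∃ y ∈ S, ∃ z ∈ S, y ≠ z ∧ G.Adj v y ∧ G.Adj v z := by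
  rw [SimpleGraph.le_egirth] at h
  push Not at h
  obtain ⟨a, c, hc, hlen⟩ := h
  have hlen' : c.length < g := by exact_mod_cast hlen
  refine ⟨c.support.toFinset, ⟨a, by simp⟩, ?_, ?_⟩
  · have h1 : c.support.toFinset = c.support.tail.toFinset := by
      ext x
      simp only [List.mem_toFinset]
      constructor
      · intro hx
        rw [← c.cons_tail_support] at hx
        rcases List.mem_cons.1 hx with rfl | hx
        · exact SimpleGraph.Walk.end_mem_tail_support hc.not_nil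
        · exact hx
      · exact List.mem_of_mem_tail
    rw [h1]
    calc _ ≤ c.support.tail.length := List.toFinset_card_le _
      _ = c.length := by simp
      _ < g := hlen'
  · intro v hv
    rw [List.mem_toFinset] at hv
    have h2 := hc.ncard_neighborSet_toSubgraph_eq_two hv
    obtain ⟨y, z, hyz, hset⟩ := Set.ncard_eq_two.1 h2
    have hy : y ∈ c.toSubgraph.neighborSet v := by rw [hset]; simp
    have hz : z ∈ c.toSubgraph.neighborSet v := by rw [hset]; simp
    rw [SimpleGraph.Subgraph.mem_neighborSet] at hy hz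
    refine ⟨y, ?_, z, ?_, hyz, hy.adj_sub, hz.adj_sub⟩
    · rw [List.mem_toFinset, ← SimpleGraph.Walk.mem_verts_toSubgraph]
      exact hy.snd_mem
    · rw [List.mem_toFinset, ← SimpleGraph.Walk.mem_verts_toSubgraph]
      exact hz.snd_mem

/-- A system of base vertices and threads. -/
structure ThreadSys where
  B : Type
  T : Type
  s : T → B
  t : T → B
  len : T → ℕ
  len_pos : ∀ τ, 0 < len τ

namespace ThreadSys

variable (S : ThreadSys)

/-- vertices: base vertices and inner vertices of threads -/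
abbrev Vert := S.B ⊕ ((τ : S.T) × Fin (S.len τ))

/-- directed adjacency -/
def link : S.Vert → S.Vert → Prop
  | .inl u, .inr x => (S.s x.1 = u ∧ x.2.val = 0) ∨ (S.t x.1 = u ∧ x.2.val + 1 = S.len x.1)
  | .inr x, .inr y => x.1 = y.1 ∧ x.2.val + 1 = y.2.val
  | _, .inl _ => False

/-- the thread graph -/
def graph : SimpleGraph S.Vert where
  Adj x y := S.link x y ∨ S.link y x
  symm := ⟨fun _ _ h => h.symm⟩
  loopless := ⟨by
    rintro (u | ⟨τ, j⟩) h
    · simp [link] at h
    · simp [link] at h⟩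

theorem adj_inl_inr (u : S.B) (x : (τ : S.T) × Fin (S.len τ)) :
    S.graph.Adj (.inl u) (.inr x) ↔
      (S.s x.1 = u ∧ x.2.val = 0) ∨ (S.t x.1 = u ∧ x.2.val + 1 = S.len x.1) := by
  simp [graph, link]

theorem adj_inr_inl (u : S.B) (x : (τ : S.T) × Fin (S.len τ)) :
    S.graph.Adj (.inr x) (.inl u) ↔
      (S.s x.1 = u ∧ x.2.val = 0) ∨ (S.t x.1 = u ∧ x.2.val + 1 = S.len x.1) := by
  simp [graph, link]

theorem not_adj_inl_inl (u v : S.B) : ¬ S.graph.Adj (.inl u) (.inl v) := by
  simp [graph, link]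

theorem adj_inr_inr (x y : (τ : S.T) × Fin (S.len τ)) :
    S.graph.Adj (.inr x) (.inr y) ↔
      (x.1 = y.1 ∧ x.2.val + 1 = y.2.val) ∨ (y.1 = x.1 ∧ y.2.val + 1 = x.2.val) := by
  simp [graph, link]

/-- the vertex before position `j` on the thread `τ` -/
def prev (τ : S.T) (j : Fin (S.len τ)) : S.Vert :=
  if h : j.val = 0 then .inl (S.s τ) else .inr ⟨τ, ⟨j.val - 1, by omega⟩⟩

/-- the vertex after position `j` on the thread `τ` -/
def next (τ : S.T) (j : Fin (S.len τ)) : S.Vert :=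
  if h : j.val + 1 = S.len τ then .inl (S.t τ) else .inr ⟨τ, ⟨j.val + 1, by omega⟩⟩

theorem adj_inr_iff (τ : S.T) (j : Fin (S.len τ)) (z : S.Vert) :
    S.graph.Adj (.inr ⟨τ, j⟩) z ↔ z = S.prev τ j ∨ z = S.next τ j := by
  rcases z with u | ⟨σ, k⟩
  · rw [adj_inr_inl]
    unfold prev next
    constructor
    · rintro (⟨h1, h2⟩ | ⟨h1, h2⟩)
      · left; simp only at h1 h2; rw [dif_pos h2, h1]
      · right; simp only at h1 h2; rw [dif_pos h2, h1]
    · rintro (h | h)
      · left
        split_ifs at h with h3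
        · exact ⟨(Sum.inl.inj h).symm, h3⟩
      · right
        split_ifs at h with h3
        · exact ⟨(Sum.inl.inj h).symm, h3⟩
  · rw [adj_inr_inr]
    unfold prev next
    constructor
    · rintro (⟨h1, h2⟩ | ⟨h1, h2⟩)
      · simp only at h1 h2
        subst h1
        right
        have hk := k.2
        rw [dif_neg (by omega)]
        congr 2
        exact Fin.ext h2.symm
      · simp only at h1 h2
        subst h1
        left
        rw [dif_neg (by omega)]
        congr 2
        exact Fin.ext (by simp only; omega)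
    · rintro (h | h)
      · right
        split_ifs at h with h3
        have h4 := Sum.inr.inj h
        obtain ⟨rfl, h5⟩ := Sigma.mk.inj_iff.1 h4
        have h6 := eq_of_heq h5
        refine ⟨rfl, ?_⟩
        simp only [h6]
        omega
      · left
        split_ifs at h with h3
        have h4 := Sum.inr.inj h
        obtain ⟨rfl, h5⟩ := Sigma.mk.inj_iff.1 h4
        have h6 := eq_of_heq h5
        refine ⟨rfl, ?_⟩
        simp only [h6]

/-- a set of vertices each of which has two neighbours in the set -/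
def IsCore (C : Finset S.Vert) : Prop :=
  ∀ v ∈ C, ∃ y ∈ C, ∃ z ∈ C, y ≠ z ∧ S.graph.Adj v y ∧ S.graph.Adj v z

variable {S}

theorem IsCore.prev_next {C : Finset S.Vert} (hC : S.IsCore C) (τ : S.T) (j : Fin (S.len τ))
    (h : .inr ⟨τ, j⟩ ∈ C) : S.prev τ j ∈ C ∧ S.next τ j ∈ C := by
  obtain ⟨y, hy, z, hz, hyz, h1, h2⟩ := hC _ h
  rw [adj_inr_iff] at h1 h2
  rcases h1 with rfl | rfl <;> rcases h2 with rfl | rfl
  · exact absurd rfl hyz
  · exact ⟨hy, hz⟩
  · exact ⟨hz, hy⟩
  · exact absurd rfl hyz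

theorem IsCore.down {C : Finset S.Vert} (hC : S.IsCore C) (τ : S.T) :
    ∀ (k : ℕ) (hk : k < S.len τ), (.inr ⟨τ, ⟨k, hk⟩⟩ : S.Vert) ∈ C →
      (.inr ⟨τ, ⟨0, S.len_pos τ⟩⟩ : S.Vert) ∈ C := by
  intro k
  induction k with
  | zero => exact fun _ h => h
  | succ k ih =>
    intro hk h
    have h1 := (hC.prev_next τ ⟨k + 1, hk⟩ h).1
    unfold prev at h1
    rw [dif_neg (by simp)] at h1
    exact ih (by omega) (by simpa using h1)

theorem IsCore.up {C : Finset S.Vert} (hC : S.IsCore C) (τ : S.T)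
    (h0 : (.inr ⟨τ, ⟨0, S.len_pos τ⟩⟩ : S.Vert) ∈ C) :
    ∀ (k : ℕ) (hk : k < S.len τ), (.inr ⟨τ, ⟨k, hk⟩⟩ : S.Vert) ∈ C := by
  intro k
  induction k with
  | zero => exact fun _ => h0
  | succ k ih =>
    intro hk
    have h1 := (hC.prev_next τ ⟨k, by omega⟩ (ih (by omega))).2
    unfold next at h1
    rw [dif_neg (by simp only; omega)] at h1
    simpa using h1

theorem IsCore.all {C : Finset S.Vert} (hC : S.IsCore C) (τ : S.T) (j : Fin (S.len τ))
    (h : .inr ⟨τ, j⟩ ∈ C) (k : Fin (S.len τ)) : (.inr ⟨τ, k⟩ : S.Vert) ∈ C :=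
  hC.up τ (hC.down τ j.1 j.2 h) k.1 k.2

theorem IsCore.start {C : Finset S.Vert} (hC : S.IsCore C) (τ : S.T) (j : Fin (S.len τ))
    (h : .inr ⟨τ, j⟩ ∈ C) : (.inl (S.s τ) : S.Vert) ∈ C := by
  have h1 := (hC.prev_next τ ⟨0, S.len_pos τ⟩ (hC.all τ j h _)).1
  unfold prev at h1
  rwa [dif_pos rfl] at h1

theorem IsCore.finish {C : Finset S.Vert} (hC : S.IsCore C) (τ : S.T) (j : Fin (S.len τ))
    (h : .inr ⟨τ, j⟩ ∈ C) : (.inl (S.t τ) : S.Vert) ∈ C := by
  have hpos := S.len_pos τ
  have h1 := (hC.prev_next τ ⟨S.len τ - 1, by omega⟩ (hC.all τ j h _)).2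
  unfold next at h1
  rwa [dif_pos (by simp only; omega)] at h1

theorem IsCore.len_le {C : Finset S.Vert} (hC : S.IsCore C) (τ : S.T) (j : Fin (S.len τ))
    (h : .inr ⟨τ, j⟩ ∈ C) : S.len τ ≤ C.card := by
  have : (univ : Finset (Fin (S.len τ))).card ≤ C.card := by
    refine card_le_card_of_injOn (fun k => (.inr ⟨τ, k⟩ : S.Vert)) ?_ ?_
    · intro k _
      exact hC.all τ j h k
    · intro a _ b _ hab
      have := Sum.inr.inj hab
      simpa using this
  simpa using this

open Classical in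
/-- A core has at least as many threads as base vertices. -/
theorem IsCore.card_le {C : Finset S.Vert} (hC : S.IsCore C) [Fintype S.T] [Fintype S.B] :
    (univ.filter (fun u : S.B => (.inl u : S.Vert) ∈ C)).card ≤
      (univ.filter (fun τ : S.T => (.inr ⟨τ, ⟨0, S.len_pos τ⟩⟩ : S.Vert) ∈ C)).card := by
  set U := univ.filter (fun u : S.B => (.inl u : S.Vert) ∈ C) with hU
  set J := univ.filter (fun τ : S.T => (.inr ⟨τ, ⟨0, S.len_pos τ⟩⟩ : S.Vert) ∈ C) with hJ
  -- darts
  let F : S.T × Bool → S.B × S.Vert := fun d =>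
    if d.2 then (S.t d.1, .inr ⟨d.1, ⟨S.len d.1 - 1, by have := S.len_pos d.1; omega⟩⟩)
    else (S.s d.1, .inr ⟨d.1, ⟨0, S.len_pos d.1⟩⟩)
  let P : Finset (S.B × S.Vert) := (U ×ˢ C).filter (fun uy => S.graph.Adj (.inl uy.1) uy.2)
  have h1 : P ⊆ (J ×ˢ (univ : Finset Bool)).image F := by
    rintro ⟨u, y⟩ hP
    rw [mem_filter, mem_product] at hP
    obtain ⟨⟨_, hy⟩, hadj⟩ := hP
    simp only at hy hadj
    rcases y with v | ⟨τ, j⟩
    · exact absurd hadj (S.not_adj_inl_inl u v)
    · rw [adj_inl_inr] at hadj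
      rw [mem_image]
      have h0 : (.inr ⟨τ, ⟨0, S.len_pos τ⟩⟩ : S.Vert) ∈ C := hC.all τ j hy _
      rcases hadj with ⟨h2, h3⟩ | ⟨h2, h3⟩
      · refine ⟨(τ, false), ?_, ?_⟩
        · rw [mem_product]; exact ⟨mem_filter.2 ⟨mem_univ _, h0⟩, mem_univ _⟩
        · simp only at h2 h3
          simp only [F, h2, Bool.false_eq_true, if_false]
          congr 3
          exact Fin.ext h3.symm
      · refine ⟨(τ, true), ?_, ?_⟩
        · rw [mem_product]; exact ⟨mem_filter.2 ⟨mem_univ _, h0⟩, mem_univ _⟩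
        · simp only at h2 h3
          simp only [F, h2, if_true]
          congr 3
          exact Fin.ext (by simp only; omega)
  have h2 : P.card ≤ J.card * 2 := by
    refine (Finset.card_le_card h1).trans (card_image_le.trans ?_)
    rw [card_product]; simp
  have h3 : U.card * 2 ≤ P.card := by
    have h4 : P.card = ∑ u ∈ U, (C.filter (fun y => S.graph.Adj (.inl u) y)).card := by
      simp only [P]
      rw [card_filter, sum_product]
      simp_rw [card_filter]
    rw [h4, ← smul_eq_mul, ← sum_const]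
    refine sum_le_sum fun u hu => ?_
    obtain ⟨y, hy, z, hz, hyz, ha, hb⟩ := hC _ (mem_filter.1 hu).2
    have : 1 < (C.filter (fun y => S.graph.Adj (.inl u) y)).card :=
      one_lt_card.2 ⟨y, mem_filter.2 ⟨hy, ha⟩, z, mem_filter.2 ⟨hz, hb⟩, hyz⟩
    exact this
  omega

/-- Girth bound for thread graphs. -/
theorem le_egirth_graph [Fintype S.T] [Fintype S.B] (g : ℕ)
    (hsp : ∀ U : Finset S.B, U.Nonempty → U.card < g → ∀ J : Finset S.T,
      (∀ τ ∈ J, S.len τ < g ∧ S.s τ ∈ U ∧ S.t τ ∈ U) → J.card < U.card) :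
    (g : ℕ∞) ≤ S.graph.egirth := by
  classical
  by_contra hcon
  obtain ⟨C, ⟨x, hx⟩, hCg, hC⟩ := exists_core _ g hcon
  have hC' : S.IsCore C := hC
  set U := univ.filter (fun u : S.B => (.inl u : S.Vert) ∈ C) with hU
  have hne : U.Nonempty := by
    rcases x with u | ⟨τ, j⟩
    · exact ⟨u, mem_filter.2 ⟨mem_univ _, hx⟩⟩
    · exact ⟨S.s τ, mem_filter.2 ⟨mem_univ _, hC'.start τ j hx⟩⟩
  have hUC : U.card ≤ C.card := by
    refine card_le_card_of_injOn (fun u => (.inl u : S.Vert)) ?_ ?_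
    · intro u hu
      exact (mem_filter.1 hu).2
    · intro a _ b _ hab
      exact Sum.inl.inj hab
  have h1 := hsp U hne (by omega)
    (univ.filter (fun τ : S.T => (.inr ⟨τ, ⟨0, S.len_pos τ⟩⟩ : S.Vert) ∈ C)) ?_
  · have h2 : U.card ≤
        (univ.filter (fun τ : S.T => (.inr ⟨τ, ⟨0, S.len_pos τ⟩⟩ : S.Vert) ∈ C)).card := by
      convert hC'.card_le
    omega
  · intro τ hτ
    have hτ' := (mem_filter.1 hτ).2
    refine ⟨?_, ?_, ?_⟩
    · exact (hC'.len_le τ _ hτ').trans_lt hCg
    · exact mem_filter.2 ⟨mem_univ _, hC'.start τ _ hτ'⟩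
    · exact mem_filter.2 ⟨mem_univ _, hC'.finish τ _ hτ'⟩

end ThreadSys

end Pool.Agent.H49.Fdom
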