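import Mathlib
import Pool.Agent.H49.Fdom.Defs
import Pool.Agent.H49.Fdom.Base
import Pool.Agent.H49.Fdom.Thread

/-!
Graphs of minimum degree two and large girth whose fractional domatic number is close to `5/2`.
-/

set_option autoImplicit false

namespace Pool.Agent.H49.Fdom

open Finset

/-- Weak duality for the fractional domatic number. -/
theorem fdom_le_of_weights {V : Type} [Fintype V] (G : SimpleGraph V) (y : V → ℝ) (c Y : ℝ)
    (hc : 0 < c) (hY : ∑ v, y v ≤ Y)
    (h : ∀ D : Set V, IsDominating G D → c ≤ ∑ v, D.indicator y v) :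
    fdom G ≤ Y / c := by
  classical
  unfold fdom
  refine csSup_le ?_ ?_
  · refine ⟨1, 1, 1, le_refl _, le_refl _, ⟨fun _ => univ, ?_, ?_⟩, by norm_num⟩
    · intro v; simp
    · intro i v; left
      rw [Set.mem_ofPred_eq]
      exact mem_univ _
  · rintro x ⟨a, b, hb, _, ⟨φ, hφ1, hφ2⟩, rfl⟩
    have hb' : (0 : ℝ) < b := by exact_mod_cast hb
    rw [div_le_div_iff₀ hb' hc]
    calc (a : ℝ) * c = ∑ _i : Fin a, c := by simp
      _ ≤ ∑ i : Fin a, ∑ v, ({v | i ∈ φ v} : Set V).indicator y v :=
          sum_le_sum fun i _ => h _ (hφ2 i)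
      _ = ∑ v, ∑ i : Fin a, (if i ∈ φ v then y v else 0) := by
          rw [sum_comm]
          refine sum_congr rfl fun v _ => sum_congr rfl fun i _ => ?_
          rw [Set.indicator_apply]
          simp only [Set.mem_ofPred_eq]
      _ = ∑ v, (b : ℝ) * y v := by
          refine sum_congr rfl fun v _ => ?_
          rw [sum_ite_mem, univ_inter, sum_const, hφ1, nsmul_eq_mul]
      _ = b * ∑ v, y v := by rw [mul_sum]
      _ ≤ b * Y := mul_le_mul_of_nonneg_left hY hb'.le
      _ = Y * b := by ring

/-- the thread system of the construction -/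
def sys (n m g : ℕ) (hg : 0 < g) (f : Ends n m) (R : Finset (Idx m)) : ThreadSys where
  B := Bool × Fin n
  T := {i : Idx m // i ∉ R} ⊕ (Bool × Fin n)
  s := Sum.elim (fun i => (false, (f i.1).1)) id
  t := Sum.elim (fun i => (true, (f i.1).2)) id
  len := Sum.elim (fun i => if i.1.1 then 2 else 1) (fun _ => g)
  len_pos := by
    rintro (i | v)
    · simp only [Sum.elim_inl]
      split_ifs <;> norm_num
    · simpa using hg

section

variable {n m g : ℕ} (hg : 0 < g) (f : Ends n m) (R : Finset (Idx m))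

instance : Fintype (sys n m g hg f R).B := inferInstanceAs (Fintype (Bool × Fin n))
instance : DecidableEq (sys n m g hg f R).B := inferInstanceAs (DecidableEq (Bool × Fin n))
instance : Fintype (sys n m g hg f R).T :=
  inferInstanceAs (Fintype ({i : Idx m // i ∉ R} ⊕ (Bool × Fin n)))
instance : Fintype (sys n m g hg f R).Vert :=
  inferInstanceAs (Fintype ((sys n m g hg f R).B ⊕ ((τ : (sys n m g hg f R).T) ×
    Fin ((sys n m g hg f R).len τ))))

theorem sys_egirth (hsp : ∀ U : Finset (Bool × Fin n), U.Nonempty → U.card < g →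
        (univ.filter (fun i : Idx m => i ∉ R ∧ Ins U (f i))).card < U.card) :
    (g : ℕ∞) ≤ (sys n m g hg f R).graph.egirth := by
  classical
  refine ThreadSys.le_egirth_graph (S := sys n m g hg f R) g ?_
  intro (U : Finset (Bool × Fin n)) hU hUg (J : Finset ({i : Idx m // i ∉ R} ⊕ (Bool × Fin n))) hJ
  refine lt_of_le_of_lt ?_ (hsp U hU hUg)
  have h1 : J ⊆ (univ.filter (fun i : {i : Idx m // i ∉ R} => Ins U (f i.1))).image
        (fun i => (Sum.inl i : {i : Idx m // i ∉ R} ⊕ (Bool × Fin n))) := by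
    rintro (i | v) hτ
    · rw [mem_image]
      exact ⟨i, mem_filter.2 ⟨mem_univ _, (hJ _ hτ).2⟩, rfl⟩
    · exact absurd (hJ _ hτ).1 (lt_irrefl _)
  refine (card_le_card h1).trans (card_image_le.trans ?_)
  refine card_le_card_of_injOn Subtype.val ?_ Subtype.val_injective.injOn
  intro i hi
  exact mem_filter.2 ⟨mem_univ _, i.2, (mem_filter.1 hi).2⟩

/-- weights on the vertices -/
noncomputable def wt : (sys n m g hg f R).Vert → ℝ
  | .inl _ => 1 / n
  | .inr ⟨.inl _, _⟩ => 1 / m
  | .inr ⟨.inr _, _⟩ => 0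

theorem sum_vert (F : (sys n m g hg f R).Vert → ℝ) :
    ∑ v, F v = ∑ u : Bool × Fin n, F (.inl u) +
      (∑ i : {i : Idx m // i ∉ R}, ∑ j : Fin (if i.1.1 then 2 else 1), F (.inr ⟨.inl i, j⟩) +
        ∑ v : Bool × Fin n, ∑ j : Fin g, F (.inr ⟨.inr v, j⟩)) := by
  have h0 : ∑ v, F v = ∑ u : (sys n m g hg f R).B, F (.inl u) +
      ∑ x : ((τ : (sys n m g hg f R).T) × Fin ((sys n m g hg f R).len τ)), F (.inr x) :=
    Fintype.sum_sum_type _
  have h1 : ∑ x : ((τ : (sys n m g hg f R).T) × Fin ((sys n m g hg f R).len τ)), F (.inr x) =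
      ∑ τ : (sys n m g hg f R).T, ∑ j : Fin ((sys n m g hg f R).len τ), F (.inr ⟨τ, j⟩) :=
    Fintype.sum_sigma _
  have h2 : ∑ τ : (sys n m g hg f R).T, ∑ j : Fin ((sys n m g hg f R).len τ), F (.inr ⟨τ, j⟩) =
      ∑ i : {i : Idx m // i ∉ R}, ∑ j : Fin (if i.1.1 then 2 else 1), F (.inr ⟨.inl i, j⟩) +
        ∑ v : Bool × Fin n, ∑ j : Fin g, F (.inr ⟨.inr v, j⟩) :=
    Fintype.sum_sum_type (fun τ : {i : Idx m // i ∉ R} ⊕ (Bool × Fin n) =>
      ∑ j : Fin ((sys n m g hg f R).len τ), F (.inr ⟨τ, j⟩))
  rw [h0, h1, h2]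
  rfl

theorem sum_wt_le (hn : 0 < n) (hm : 0 < m) : ∑ v, wt hg f R v ≤ 5 := by
  rw [sum_vert]
  simp only [wt, sum_const, card_univ, Fintype.card_prod, Fintype.card_bool, Fintype.card_fin,
    nsmul_eq_mul, mul_zero, add_zero]
  have hn' : (n : ℝ) ≠ 0 := by positivity
  have hm' : (0 : ℝ) < m := by positivity
  have h1 : ∑ i : {i : Idx m // i ∉ R}, (((if i.1.1 then 2 else 1 : ℕ) : ℝ) * (1 / m)) ≤ 3 := by
    calc ∑ i : {i : Idx m // i ∉ R}, (((if i.1.1 then 2 else 1 : ℕ) : ℝ) * (1 / m))
        = ∑ i ∈ univ.filter (fun i : Idx m => i ∉ R),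
          (((if i.1 then 2 else 1 : ℕ) : ℝ) * (1 / m)) := by
          exact (sum_subtype (univ.filter (fun i : Idx m => i ∉ R)) (by simp)
            (fun i => (((if i.1 then 2 else 1 : ℕ) : ℝ) * (1 / m)))).symm
      _ ≤ ∑ i : Idx m, (((if i.1 then 2 else 1 : ℕ) : ℝ) * (1 / m)) :=
          sum_le_sum_of_subset_of_nonneg (filter_subset _ _) fun _ _ _ => by positivity
      _ = 3 := by
          rw [Fintype.sum_prod_type]
          simp only [Fintype.sum_bool, if_true, Bool.false_eq_true, if_false, sum_const, card_univ,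
            Fintype.card_fin, nsmul_eq_mul]
          field_simp
          norm_num
  have h2 : ((2 * n : ℕ) : ℝ) * (1 / n) = 2 := by
    push_cast
    field_simp
  linarith

/-- the thread of index `i` contains a vertex of a dominating set if it has to -/
theorem need_le {D : Set (sys n m g hg f R).Vert} (hD : IsDominating (sys n m g hg f R).graph D)
    (A B : Finset (Fin n)) (hA : ∀ u, .inl (false, u) ∈ D → u ∈ A)
    (hB : ∀ u, .inl (true, u) ∈ D → u ∈ B) (i : {i : Idx m // i ∉ R}) :
    (if need A B i.1.1 (f i.1) then (1 / m : ℝ) else 0) ≤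
      ∑ j : Fin (if i.1.1 then 2 else 1),
        D.indicator (wt hg f R) (.inr ⟨.inl i, j⟩) := by
  have hnn : ∀ j : Fin (if i.1.1 then 2 else 1),
      0 ≤ D.indicator (wt hg f R) (.inr ⟨.inl i, j⟩) := fun j =>
    Set.indicator_nonneg (fun v _ => by
      rcases v with u | ⟨i | v, j⟩ <;> simp only [wt] <;> positivity) _
  by_cases hneed : need A B i.1.1 (f i.1)
  · rw [if_pos hneed]
    -- some inner vertex lies in `D`
    have hex : ∃ j : Fin (if i.1.1 then 2 else 1), (.inr ⟨.inl i, j⟩ : (sys n m g hg f R).Vert) ∈ D := by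
      by_contra hno
      push Not at hno
      have hs : (.inl (false, (f i.1).1) : (sys n m g hg f R).Vert) ∈ D ∨
          (i.1.1 = false ∧ (.inl (true, (f i.1).2) : (sys n m g hg f R).Vert) ∈ D) := by
        have hpos := (sys n m g hg f R).len_pos (.inl i)
        rcases hD (.inr ⟨.inl i, ⟨0, hpos⟩⟩) with h | ⟨z, hz, hadj⟩
        · exact absurd h (hno _)
        · rcases (ThreadSys.adj_inr_iff (sys n m g hg f R) (.inl i) _ z).1 hadj with rfl | rfl
          · left
            unfold ThreadSys.prev at hz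
            rwa [dif_pos rfl] at hz
          · unfold ThreadSys.next at hz
            split_ifs at hz with h1
            · right
              refine ⟨?_, hz⟩
              by_contra h2
              rw [Bool.not_eq_false] at h2
              simp [sys, h2] at h1
            · exact absurd hz (hno _)
      have ht : (.inl (true, (f i.1).2) : (sys n m g hg f R).Vert) ∈ D ∨
          (i.1.1 = false ∧ (.inl (false, (f i.1).1) : (sys n m g hg f R).Vert) ∈ D) := by
        have hpos := (sys n m g hg f R).len_pos (.inl i)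
        rcases hD (.inr ⟨.inl i, ⟨(sys n m g hg f R).len (.inl i) - 1, by omega⟩⟩) with
          h | ⟨z, hz, hadj⟩
        · exact absurd h (hno _)
        · rcases (ThreadSys.adj_inr_iff (sys n m g hg f R) (.inl i) _ z).1 hadj with rfl | rfl
          · unfold ThreadSys.prev at hz
            split_ifs at hz with h1
            · right
              refine ⟨?_, hz⟩
              by_contra h2
              rw [Bool.not_eq_false] at h2
              simp [sys, h2] at h1
            · exact absurd hz (hno _)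
          · left
            unfold ThreadSys.next at hz
            rwa [dif_pos (by simp only; omega)] at hz
      by_cases h3 : i.1.1 = true
      · -- two inner vertices
        unfold need at hneed
        rw [if_pos h3] at hneed
        rcases hs with hs | hs
        · rcases ht with ht | ht
          · exact hneed ⟨hA _ hs, hB _ ht⟩
          · rw [h3] at ht; exact absurd ht.1 (by simp)
        · rw [h3] at hs; exact absurd hs.1 (by simp)
      · unfold need at hneed
        rw [if_neg h3] at hneed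
        rcases hs with hs | hs
        · exact hneed.1 (hA _ hs)
        · exact hneed.2 (hB _ hs.2)
    obtain ⟨j, hj⟩ := hex
    have h4 : D.indicator (wt hg f R) (.inr ⟨.inl i, j⟩) = 1 / m := by
      rw [Set.indicator_of_mem hj]
      rfl
    rw [← h4]
    exact single_le_sum (fun k _ => hnn k) (mem_univ j)
  · rw [if_neg hneed]
    exact sum_nonneg fun j _ => hnn j

theorem cost_ge (hn : 0 < n) (hm : 0 < m) (ε : ℝ)
    (hmix : ∀ A B : Finset (Fin n), (m : ℝ) * (sVal A B - ε) ≤ X A B f)
    (hR : (R.card : ℝ) ≤ ε * m)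
    (D : Set (sys n m g hg f R).Vert) (hD : IsDominating (sys n m g hg f R).graph D) :
    2 - 2 * ε ≤ ∑ v, D.indicator (wt hg f R) v := by
  classical
  rw [sum_vert]
  set A : Finset (Fin n) := univ.filter (fun u => (.inl (false, u) : (sys n m g hg f R).Vert) ∈ D)
    with hA
  set B : Finset (Fin n) := univ.filter (fun u => (.inl (true, u) : (sys n m g hg f R).Vert) ∈ D)
    with hB
  have hm' : (0 : ℝ) < m := by positivity
  have h1 : ∑ u : Bool × Fin n, D.indicator (wt hg f R) (.inl u) =
      (A.card : ℝ) / n + (B.card : ℝ) / n := by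
    rw [Fintype.sum_prod_type]
    simp only [Fintype.sum_bool]
    have h2 : ∀ b : Bool, ∀ u : Fin n, D.indicator (wt hg f R) (.inl (b, u)) =
        (if (.inl (b, u) : (sys n m g hg f R).Vert) ∈ D then (1 / n : ℝ) else 0) := by
      intro b u
      rw [Set.indicator_apply]
      rfl
    simp_rw [h2]
    rw [← sum_filter, ← sum_filter, sum_const, sum_const, nsmul_eq_mul, nsmul_eq_mul, ← hA, ← hB]
    ring
  have h3 : ((X A B f : ℝ) - R.card) / m ≤
      ∑ i : {i : Idx m // i ∉ R}, (if need A B i.1.1 (f i.1) then (1 / m : ℝ) else 0) := by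
    have h4 : ∑ i : {i : Idx m // i ∉ R}, (if need A B i.1.1 (f i.1) then (1 / m : ℝ) else 0) =
        ∑ i ∈ univ.filter (fun i : Idx m => i ∉ R),
          (if need A B i.1 (f i) then (1 / m : ℝ) else 0) :=
      (sum_subtype (univ.filter (fun i : Idx m => i ∉ R)) (by simp)
            (fun i => (if need A B i.1 (f i) then (1 / m : ℝ) else 0))).symm
    have h5 : ((univ.filter (fun i : Idx m => need A B i.1 (f i))).card : ℝ) ≤
        ((univ.filter (fun i : Idx m => i ∉ R)).filter (fun i => need A B i.1 (f i))).card +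
          R.card := by
      have : univ.filter (fun i : Idx m => need A B i.1 (f i)) ⊆
          ((univ.filter (fun i : Idx m => i ∉ R)).filter (fun i => need A B i.1 (f i))) ∪ R := by
        intro i hi
        rw [mem_union]
        by_cases hiR : i ∈ R
        · exact Or.inr hiR
        · exact Or.inl (mem_filter.2 ⟨mem_filter.2 ⟨mem_univ _, hiR⟩, (mem_filter.1 hi).2⟩)
      exact_mod_cast (card_le_card this).trans (card_union_le _ _)
    rw [h4, ← sum_filter, sum_const, nsmul_eq_mul, mul_one_div]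
    refine div_le_div_of_nonneg_right ?_ hm'.le
    unfold X
    linarith
  have h6 : ∑ i : {i : Idx m // i ∉ R}, (if need A B i.1.1 (f i.1) then (1 / m : ℝ) else 0) ≤
      ∑ i : {i : Idx m // i ∉ R}, ∑ j : Fin (if i.1.1 then 2 else 1),
        D.indicator (wt hg f R) (.inr ⟨.inl i, j⟩) :=
    sum_le_sum fun i _ => need_le hg f R hD A B (fun u hu => mem_filter.2 ⟨mem_univ _, hu⟩)
      (fun u hu => mem_filter.2 ⟨mem_univ _, hu⟩) i
  have h7 : 0 ≤ ∑ v : Bool × Fin n, ∑ j : Fin g, D.indicator (wt hg f R) (.inr ⟨.inr v, j⟩) :=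
    sum_nonneg fun v _ => sum_nonneg fun j _ => Set.indicator_nonneg (fun v _ => by
      rcases v with u | ⟨i | v, j⟩ <;> simp only [wt] <;> positivity) _
  have h8 : sVal A B - ε - ε ≤ ((X A B f : ℝ) - R.card) / m := by
    rw [le_div_iff₀ hm']
    have := hmix A B
    nlinarith
  have h9 : sVal A B = 2 - (A.card : ℝ) / n - (B.card : ℝ) / n := rfl
  linarith

theorem prev_ne_next (hg3 : 3 ≤ g) (τ : (sys n m g hg f R).T)
    (j : Fin ((sys n m g hg f R).len τ)) :
    (sys n m g hg f R).prev τ j ≠ (sys n m g hg f R).next τ j := by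
  unfold ThreadSys.prev ThreadSys.next
  intro h
  split_ifs at h with h1 h2 h2
  · have h3 := Sum.inl.inj h
    rcases τ with i | v
    · have h4 : ((false, (f i.1).1) : Bool × Fin n) = (true, (f i.1).2) := h3
      exact absurd (congrArg Prod.fst h4) (by simp)
    · have h5 : (sys n m g hg f R).len (.inr v) = g := rfl
      omega
  · have h3 := Sum.inr.inj h
    have h4 := eq_of_heq (Sigma.mk.inj_iff.1 h3).2
    have h5 := congrArg Fin.val h4
    simp only at h5
    omega

theorem sys_minDegree [DecidableRel (sys n m g hg f R).graph.Adj] (hg3 : 3 ≤ g) (hn : 0 < n) :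
    (sys n m g hg f R).graph.minDegree = 2 := by
  classical
  have hinr : ∀ (τ : (sys n m g hg f R).T) (j : Fin ((sys n m g hg f R).len τ)),
      (sys n m g hg f R).graph.degree (.inr ⟨τ, j⟩) = 2 := by
    intro τ j
    rw [← SimpleGraph.card_neighborFinset_eq_degree]
    have : (sys n m g hg f R).graph.neighborFinset (.inr ⟨τ, j⟩) =
        {(sys n m g hg f R).prev τ j, (sys n m g hg f R).next τ j} := by
      ext z
      rw [SimpleGraph.mem_neighborFinset, ThreadSys.adj_inr_iff, mem_insert, mem_singleton]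
    rw [this, card_pair (prev_ne_next hg f R hg3 τ j)]
  have hinl : ∀ u : (sys n m g hg f R).B, 2 ≤ (sys n m g hg f R).graph.degree (.inl u) := by
    intro u
    rw [← SimpleGraph.card_neighborFinset_eq_degree]
    have hlen : (sys n m g hg f R).len (.inr u) = g := rfl
    refine one_lt_card.2 ⟨.inr ⟨.inr u, ⟨0, by omega⟩⟩, ?_, .inr ⟨.inr u, ⟨g - 1, by omega⟩⟩, ?_, ?_⟩
    · rw [SimpleGraph.mem_neighborFinset, ThreadSys.adj_inl_inr]
      left; exact ⟨rfl, rfl⟩
    · rw [SimpleGraph.mem_neighborFinset, ThreadSys.adj_inl_inr]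
      right; exact ⟨rfl, by simp only [hlen]; omega⟩
    · intro h
      have h3 := Sum.inr.inj h
      have h4 := eq_of_heq (Sigma.mk.inj_iff.1 h3).2
      have h5 := congrArg Fin.val h4
      simp only at h5
      omega
  refine le_antisymm ?_ ?_
  · have hlen : (sys n m g hg f R).len (.inr (true, ⟨0, hn⟩)) = g := rfl
    exact (SimpleGraph.minDegree_le_degree _ _).trans
      (hinr (.inr (true, ⟨0, hn⟩)) ⟨0, by omega⟩).le
  · have : Nonempty (sys n m g hg f R).Vert := ⟨.inl (true, ⟨0, hn⟩)⟩
    refine SimpleGraph.le_minDegree_of_forall_le_degree _ _ ?_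
    rintro (u | ⟨τ, j⟩)
    · exact hinl u
    · exact (hinr τ j).ge

end

open Classical in
/-- Finite graphs of minimum degree `2`, arbitrarily large girth and fractional domatic number
arbitrarily close to `5 / 2`. -/
theorem upper (g : ℕ) (ε : ℝ) (hε : 0 < ε) :
    ∃ (V : Type) (_ : Fintype V) (G : SimpleGraph V),
      G.minDegree = 2 ∧ (g : ℕ∞) ≤ G.egirth ∧ fdom G ≤ 5 / 2 + ε := by
  set g' := max g 3 with hg'
  have hg3 : 3 ≤ g' := le_max_right _ _
  have hgg : g ≤ g' := le_max_left _ _
  set δ : ℝ := min (1 / 2) (ε / 5) with hδ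
  have hδ0 : 0 < δ := lt_min (by norm_num) (by positivity)
  have hδ1 : δ ≤ 1 / 2 := min_le_left _ _
  have hδ2 : δ ≤ ε / 5 := min_le_right _ _
  obtain ⟨n, m, f, R, hn, hm, hmix, hR, hsp⟩ := exists_base g' δ hδ0
  refine ⟨(sys n m g' (by omega) f R).Vert, inferInstance, (sys n m g' (by omega) f R).graph,
    ?_, ?_, ?_⟩
  · exact sys_minDegree _ f R hg3 hn
  · exact le_trans (by exact_mod_cast hgg) (sys_egirth _ f R hsp)
  · refine (fdom_le_of_weights _ (wt (by omega) f R) (2 - 2 * δ) 5 (by linarith)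
      (sum_wt_le _ f R hn hm) (fun D hD => cost_ge _ f R hn hm δ hmix hR D hD)).trans ?_
    rw [div_le_iff₀ (by linarith)]
    nlinarith

end Pool.Agent.H49.Fdom
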